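import Pool.Agent.PPE.Small

/-!
# PPE/Count: orders `n` of planar neofields, `n` even, `n - 1` prime, with a small odd prime factor

For an odd prime `p` with `2 p ∣ n` the residues of `2^u p^v` modulo the prime `n - 1` cannot be
pairwise different for `0 ≤ u, v ≤ T`, `T` about `n^(1/4)`; so `n - 1` divides a fixed number with
few prime factors.
-/

set_option autoImplicit false

namespace Pool.Agent.PPE

open Finset Pool.Agent.PPC

/-- The pairs `(a, b) ≠ (0, 0)` with `a, b ≤ T`. -/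
def Bx (T : ℕ) : Finset (ℕ × ℕ) := (range (T + 1) ×ˢ range (T + 1)).erase (0, 0)

/-- The product of the numbers `2^a p^b - 1` and `|2^a - p^b|`. -/
def Zf (p T : ℕ) : ℕ :=
  ∏ s ∈ Bx T, ((2 ^ s.1 * p ^ s.2 - 1) * ((2 : ℤ) ^ s.1 - (p : ℤ) ^ s.2).natAbs)

theorem mem_Bx {T a b : ℕ} : (a, b) ∈ Bx T ↔ (a, b) ≠ (0, 0) ∧ a ≤ T ∧ b ≤ T := by
  rw [Bx, mem_erase, mem_product, mem_range, mem_range]
  constructor
  · rintro ⟨h1, h2, h3⟩; exact ⟨h1, by simpa [Nat.lt_succ_iff] using h2,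
      by simpa [Nat.lt_succ_iff] using h3⟩
  · rintro ⟨h1, h2, h3⟩; exact ⟨h1, by simpa [Nat.lt_succ_iff] using h2,
      by simpa [Nat.lt_succ_iff] using h3⟩

theorem one_lt_prod {p a b : ℕ} (hp : p.Prime) (h : (a, b) ≠ (0, 0)) : 1 < 2 ^ a * p ^ b := by
  have h1 : 1 ≤ 2 ^ a := Nat.one_le_two_pow
  have h2 : 1 ≤ p ^ b := Nat.one_le_pow _ _ hp.pos
  rcases Nat.eq_zero_or_pos a with ha | ha
  · have hb : b ≠ 0 := by rintro rfl; exact h (by rw [ha])
    have h3 : 1 < p ^ b := Nat.one_lt_pow hb hp.one_lt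
    nlinarith
  · have h3 : 1 < 2 ^ a := Nat.one_lt_pow (by omega) (by norm_num)
    nlinarith

theorem two_pow_ne {p a b : ℕ} (hp : p.Prime) (hp2 : p ≠ 2) (h : (a, b) ≠ (0, 0)) :
    2 ^ a ≠ p ^ b := by
  intro h1
  rcases Nat.eq_zero_or_pos a with ha | ha
  · rw [ha, pow_zero] at h1
    have hb : b ≠ 0 := by rintro rfl; exact h (by rw [ha])
    have h3 : 1 < p ^ b := Nat.one_lt_pow hb hp.one_lt
    omega
  · have h2 : 2 ∣ p ^ b := by rw [← h1]; exact dvd_pow_self 2 (by omega)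
    have h3 := Nat.prime_two.dvd_of_dvd_pow h2
    exact hp2 ((Nat.prime_dvd_prime_iff_eq Nat.prime_two hp).1 h3).symm

theorem Zf_ne {p T : ℕ} (hp : p.Prime) (hp2 : p ≠ 2) : Zf p T ≠ 0 := by
  rw [Zf, prod_ne_zero_iff]
  rintro ⟨a, b⟩ hs
  obtain ⟨h1, -, -⟩ := mem_Bx.1 hs
  have h2 := one_lt_prod hp h1
  have h3 := two_pow_ne hp hp2 h1
  refine mul_ne_zero (by simp only; omega) ?_
  simp only
  rw [Int.natAbs_ne_zero, sub_ne_zero]
  exact_mod_cast h3

theorem Zf_le {p T : ℕ} (hp : p.Prime) : Zf p T ≤ 2 ^ (4 * p * (T * (T + 1) ^ 2)) := by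
  have h2p : 2 * p ≤ 2 ^ (2 * p) := Nat.lt_two_pow_self.le
  have h1 : Zf p T ≤ ∏ _s ∈ Bx T, (2 ^ (2 * p)) ^ (2 * T) := by
    refine prod_le_prod' ?_
    rintro ⟨a, b⟩ hs
    obtain ⟨-, ha, hb⟩ := mem_Bx.1 hs
    have h3 : 2 ^ a * p ^ b ≤ (2 * p) ^ T := by
      rw [mul_pow]
      exact Nat.mul_le_mul (Nat.pow_le_pow_right (by norm_num) ha)
        (Nat.pow_le_pow_right hp.pos hb)
    have h4 : ((2 : ℤ) ^ a - (p : ℤ) ^ b).natAbs ≤ (2 * p) ^ T := by
      have e1 : 2 ^ a ≤ 2 ^ a * p ^ b := Nat.le_mul_of_pos_right _ (Nat.pow_pos hp.pos)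
      have e2 : p ^ b ≤ 2 ^ a * p ^ b := Nat.le_mul_of_pos_left _ (by positivity)
      have e3 : ((2 : ℤ) ^ a - (p : ℤ) ^ b).natAbs ≤ max (2 ^ a) (p ^ b) := by
        have e4 : ((2 : ℤ) ^ a) = ((2 ^ a : ℕ) : ℤ) := by push_cast; rfl
        have e5 : ((p : ℤ) ^ b) = ((p ^ b : ℕ) : ℤ) := by push_cast; rfl
        have e6 : ∀ A B : ℕ, ((A : ℤ) - (B : ℤ)).natAbs ≤ max A B := by
          intro A B
          rcases le_total A B with h | h
          · rw [max_eq_right h]; omega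
          · rw [max_eq_left h]; omega
        rw [e4, e5]
        exact e6 _ _
      exact e3.trans (max_le (e1.trans h3) (e2.trans h3))
    calc (2 ^ a * p ^ b - 1) * ((2 : ℤ) ^ a - (p : ℤ) ^ b).natAbs
        ≤ (2 * p) ^ T * (2 * p) ^ T := Nat.mul_le_mul ((Nat.sub_le _ _).trans h3) h4
      _ = (2 * p) ^ (2 * T) := by rw [← pow_add]; congr 1; ring
      _ ≤ (2 ^ (2 * p)) ^ (2 * T) := Nat.pow_le_pow_left h2p _
  have h5 : #(Bx T) ≤ (T + 1) ^ 2 := by
    rw [Bx]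
    refine (card_erase_le).trans ?_
    rw [card_product, card_range, sq]
  rw [prod_const] at h1
  refine h1.trans ?_
  rw [← pow_mul, ← pow_mul]
  refine Nat.pow_le_pow_right (by norm_num) ?_
  calc 2 * p * (2 * T * #(Bx T)) ≤ 2 * p * (2 * T * (T + 1) ^ 2) :=
        Nat.mul_le_mul_left _ (Nat.mul_le_mul_left _ h5)
    _ = 4 * p * (T * (T + 1) ^ 2) := by ring

theorem card_primeFactors_Zf {p T : ℕ} (hp : p.Prime) (hp2 : p ≠ 2) :
    #(Zf p T).primeFactors ≤ 4 * p * (T * (T + 1) ^ 2) := by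
  have h1 : 2 ^ #(Zf p T).primeFactors ≤ ∏ q ∈ (Zf p T).primeFactors, q :=
    pow_card_le_prod _ _ _ fun q hq => (Nat.prime_of_mem_primeFactors hq).two_le
  have h2 : ∏ q ∈ (Zf p T).primeFactors, q ≤ Zf p T :=
    Nat.le_of_dvd (Nat.pos_of_ne_zero (Zf_ne hp hp2)) (Nat.prod_primeFactors_dvd _)
  exact (Nat.pow_le_pow_iff_right (by norm_num)).1 ((h1.trans h2).trans (Zf_le hp))

/-- A coincidence gives a divisor of `Zf`. -/
theorem dvd_Zf {p T q : ℕ} (h2q : Nat.Coprime q 2) (hpq : Nat.Coprime q p)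
    {u v u' v' : ℕ} (hu : u ≤ T) (hv : v ≤ T) (hu' : u' ≤ T) (hv' : v' ≤ T)
    (hne : (u, v) ≠ (u', v')) (h : 2 ^ u * p ^ v ≡ 2 ^ u' * p ^ v' [MOD q])
    (hp : p.Prime) : q ∣ Zf p T := by
  have key1 : ∀ a b : ℕ, (a, b) ≠ (0, 0) → a ≤ T → b ≤ T → 1 ≡ 2 ^ a * p ^ b [MOD q] →
      q ∣ Zf p T := by
    intro a b hab ha hb hmod
    have h1 : q ∣ 2 ^ a * p ^ b - 1 := (Nat.modEq_iff_dvd' (one_lt_prod hp hab).le).1 hmod
    exact (h1.trans (dvd_mul_right _ _)).trans (dvd_prod_of_mem _ (mem_Bx.2 ⟨hab, ha, hb⟩))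
  have key2 : ∀ a b : ℕ, (a, b) ≠ (0, 0) → a ≤ T → b ≤ T → 2 ^ a ≡ p ^ b [MOD q] →
      q ∣ Zf p T := by
    intro a b hab ha hb hmod
    have h1 : (q : ℤ) ∣ (2 : ℤ) ^ a - (p : ℤ) ^ b := by
      have := (Nat.modEq_iff_dvd.1 hmod.symm)
      push_cast at this
      exact this
    have h2 : q ∣ ((2 : ℤ) ^ a - (p : ℤ) ^ b).natAbs := Int.natCast_dvd.1 h1
    exact (h2.trans (dvd_mul_left _ _)).trans (dvd_prod_of_mem _ (mem_Bx.2 ⟨hab, ha, hb⟩))
  have hc : ∀ a b : ℕ, Nat.Coprime q (2 ^ a * p ^ b) := fun a b =>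
    Nat.Coprime.mul_right (Nat.Coprime.pow_right _ h2q) (Nat.Coprime.pow_right _ hpq)
  have cancel : ∀ {c a b : ℕ}, Nat.Coprime q c → c * a ≡ c * b [MOD q] → a ≡ b [MOD q] :=
    fun h1 h2 => Nat.ModEq.cancel_left_of_coprime h1 h2
  rcases le_total u u' with h1 | h1 <;> rcases le_total v v' with h2 | h2
  · refine key1 (u' - u) (v' - v) ?_ (by omega) (by omega) (cancel (hc u v) ?_)
    · intro h3
      simp only [Prod.mk.injEq] at h3
      exact hne (by rw [show u = u' by omega, show v = v' by omega])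
    · have e : 2 ^ u * p ^ v * (2 ^ (u' - u) * p ^ (v' - v)) = 2 ^ u' * p ^ v' := by
        rw [mul_mul_mul_comm, ← pow_add, ← pow_add, Nat.add_sub_cancel' h1,
          Nat.add_sub_cancel' h2]
      rw [mul_one, e]
      exact h
  · refine key2 (u' - u) (v - v') ?_ (by omega) (by omega) (cancel (hc u v') ?_)
    · intro h3
      simp only [Prod.mk.injEq] at h3
      exact hne (by rw [show u = u' by omega, show v = v' by omega])
    · have e1 : 2 ^ u * p ^ v' * 2 ^ (u' - u) = 2 ^ u' * p ^ v' := by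
        rw [mul_right_comm, ← pow_add, Nat.add_sub_cancel' h1]
      have e2 : 2 ^ u * p ^ v' * p ^ (v - v') = 2 ^ u * p ^ v := by
        rw [mul_assoc, ← pow_add, Nat.add_sub_cancel' h2]
      rw [e1, e2]
      exact h.symm
  · refine key2 (u - u') (v' - v) ?_ (by omega) (by omega) (cancel (hc u' v) ?_)
    · intro h3
      simp only [Prod.mk.injEq] at h3
      exact hne (by rw [show u = u' by omega, show v = v' by omega])
    · have e1 : 2 ^ u' * p ^ v * 2 ^ (u - u') = 2 ^ u * p ^ v := by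
        rw [mul_right_comm, ← pow_add, Nat.add_sub_cancel' h1]
      have e2 : 2 ^ u' * p ^ v * p ^ (v' - v) = 2 ^ u' * p ^ v' := by
        rw [mul_assoc, ← pow_add, Nat.add_sub_cancel' h2]
      rw [e1, e2]
      exact h
  · refine key1 (u - u') (v - v') ?_ (by omega) (by omega) (cancel (hc u' v') ?_)
    · intro h3
      simp only [Prod.mk.injEq] at h3
      exact hne (by rw [show u = u' by omega, show v = v' by omega])
    · have e : 2 ^ u' * p ^ v' * (2 ^ (u - u') * p ^ (v - v')) = 2 ^ u * p ^ v := by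
        rw [mul_mul_mul_comm, ← pow_add, ← pow_add, Nat.add_sub_cancel' h1,
          Nat.add_sub_cancel' h2]
      rw [mul_one, e]
      exact h.symm

/-- For an order `n` of a planar neofield, `n` even, `n - 1` prime, `p` an odd prime factor. -/
theorem mem_Zf {A : Type} [CommGroup A] {n : ℕ} {e : A} {D : Finset (A × A)}
    (h : NDS n e D) (hq : (n - 1).Prime) (h2 : 2 ∣ n) {p T : ℕ} (hp : p.Prime) (hp2 : p ≠ 2)
    (hpn : p ∣ n) (hT : n < T ^ 4) : n - 1 ∈ (Zf p T).primeFactors := by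
  have hn3 : 3 ≤ n := by have := hq.two_le; omega
  refine Nat.mem_primeFactors.2 ⟨hq, ?_, Zf_ne hp hp2⟩
  by_contra hdvd
  have hco : ∀ r : ℕ, r ∣ n → Nat.Coprime (n - 1) r := by
    intro r hr
    refine Nat.Coprime.coprime_dvd_right hr ?_
    have : Nat.Coprime (n - 1) (n - 1 + 1) := by simp
    rwa [Nat.sub_add_cancel (by omega)] at this
  have hinj : ∀ s ∈ range (T + 1) ×ˢ range (T + 1), ∀ s' ∈ range (T + 1) ×ˢ range (T + 1),
      2 ^ s.1 * p ^ s.2 ≡ 2 ^ s'.1 * p ^ s'.2 [MOD (n - 1)] → s = s' := by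
    rintro ⟨u, v⟩ hs ⟨u', v'⟩ hs' hmod
    rw [mem_product, mem_range, mem_range] at hs hs'
    simp only at hs hs' hmod
    by_contra hne
    exact hdvd (dvd_Zf (hco 2 h2) (hco p hpn) (by omega) (by omega) (by omega) (by omega) hne
      hmod hp)
  let S : Finset ℕ := (range (T + 1) ×ˢ range (T + 1)).image fun s => 2 ^ s.1 * p ^ s.2
  have hcard : #S = (T + 1) ^ 2 := by
    rw [card_image_of_injOn, card_product, card_range, sq]
    intro s hs s' hs' heq
    exact hinj s hs s' hs' (by simp only at heq; rw [heq])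
  have h3 := small h hq (S := S) (by
    intro m hm x y hxy
    obtain ⟨s, -, rfl⟩ := mem_image.1 hm
    exact pow_mem2 h Nat.prime_two h2 hp hpn _ _ hxy) (by
    intro a ha b hb hab
    obtain ⟨s, hs, rfl⟩ := mem_image.1 ha
    obtain ⟨s', hs', rfl⟩ := mem_image.1 hb
    rw [hinj s hs s' hs' hab])
  rw [hcard] at h3
  have h4 : T ^ 4 + (T + 1) ^ 2 ≤ (T + 1) ^ 2 * (T + 1) ^ 2 := by
    have : (T + 1) ^ 2 * (T + 1) ^ 2 = T ^ 4 + 4 * T ^ 3 + 6 * T ^ 2 + 4 * T + 1 := by ring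
    rw [this]
    nlinarith [sq_nonneg T]
  omega

open Classical in
/-- The number of orders `n ≤ x` of planar neofields, `n` even, `n - 1` prime, with an odd prime
factor of at most `x^(1/16)`. -/
theorem count {P : ℕ → Prop}
    (hP : ∀ n, P n → ∃ (A : Type) (_ : CommGroup A) (e : A) (D : Finset (A × A)), NDS n e D)
    {x w : ℕ} (hw : x < (w + 1) ^ 16) :
    #((Icc 2 x).filter fun n => P n ∧ 2 ∣ n ∧ (n - 1).Prime ∧
      ∃ p : ℕ, p.Prime ∧ p ≠ 2 ∧ p ∣ n ∧ p ≤ w) ≤ 16 * (w + 1) ^ 14 := by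
  obtain ⟨T, hT⟩ : ∃ T : ℕ, T = (w + 1) ^ 4 := ⟨_, rfl⟩
  have hT1 : 1 ≤ T := by rw [hT]; exact Nat.one_le_pow _ _ (by omega)
  have hsub : ((Icc 2 x).filter fun n => P n ∧ 2 ∣ n ∧ (n - 1).Prime ∧
      ∃ p : ℕ, p.Prime ∧ p ≠ 2 ∧ p ∣ n ∧ p ≤ w) ⊆
      ((range (w + 1)).filter fun p => p.Prime ∧ p ≠ 2).biUnion fun p =>
        (Zf p T).primeFactors.image fun q => q + 1 := by
    intro n hn
    rw [mem_filter, mem_Icc] at hn
    obtain ⟨hn1, hPn, h2, hq, p, hp, hp2, hpn, hpw⟩ := hn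
    obtain ⟨A, _, e, D, hD⟩ := hP n hPn
    rw [mem_biUnion]
    refine ⟨p, by rw [mem_filter, mem_range]; exact ⟨by omega, hp, hp2⟩, ?_⟩
    rw [mem_image]
    refine ⟨n - 1, mem_Zf hD hq h2 hp hp2 hpn ?_, by omega⟩
    rw [hT, ← pow_mul]
    exact lt_of_le_of_lt hn1.2 hw
  refine (card_le_card hsub).trans (card_biUnion_le.trans ?_)
  calc ∑ p ∈ (range (w + 1)).filter fun p => p.Prime ∧ p ≠ 2,
        #((Zf p T).primeFactors.image fun q => q + 1)
      ≤ ∑ _p ∈ (range (w + 1)).filter fun p => p.Prime ∧ p ≠ 2, 4 * w * (T * (T + 1) ^ 2) := by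
        refine sum_le_sum fun p hp => ?_
        rw [mem_filter, mem_range] at hp
        refine card_image_le.trans ((card_primeFactors_Zf hp.2.1 hp.2.2).trans ?_)
        exact Nat.mul_le_mul_right _ (Nat.mul_le_mul_left _ (by omega))
    _ ≤ (w + 1) * (4 * w * (T * (T + 1) ^ 2)) := by
        rw [sum_const, smul_eq_mul]
        refine Nat.mul_le_mul_right _ ((card_filter_le _ _).trans ?_)
        rw [card_range]
    _ ≤ (w + 1) * (4 * (w + 1) * (T * (2 * T) ^ 2)) := by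
        refine Nat.mul_le_mul_left _ (Nat.mul_le_mul (by omega) (Nat.mul_le_mul_left _ ?_))
        exact Nat.pow_le_pow_left (by omega) 2
    _ = 16 * (w + 1) ^ 14 := by rw [hT]; ring

end Pool.Agent.PPE
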