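import Pool.Agent.PPE.Count
import Pool.Agent.PPD.Wrap2
import Pool.Agent.PPD.Final2
import Pool.Agent.PPD.CondPN2
import Pool.Agent.PPD.Neo4
import Pool.Agent.PPD.FWrap

/-!
# PPE/Main: orders of planar neofields that are not prime powers are rare, without exceptions
-/

set_option autoImplicit false

namespace Pool.Agent.PPE

open Finset Pool.Agent.PPC Pool.Agent.PPD Filter

/-- A bound for all large `x` is a bound for all `x`. -/
theorem ext_bound {f : ℕ → ℕ} {θ : ℝ}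
    (h : ∃ C : ℝ, ∀ᶠ x : ℕ in atTop, (f x : ℝ) ≤ C * x / (Real.log x) ^ θ) :
    ∃ C : ℝ, ∀ x : ℕ, 2 ≤ x → (f x : ℝ) ≤ C * x / (Real.log x) ^ θ := by
  obtain ⟨C, hC⟩ := h
  obtain ⟨X, hX⟩ := eventually_atTop.1 hC
  have hpos : ∀ y : ℕ, 0 ≤ (f y : ℝ) * (Real.log y) ^ θ / y := fun y =>
    div_nonneg (mul_nonneg (Nat.cast_nonneg _) (Real.rpow_nonneg (Real.log_natCast_nonneg y) _))
      (Nat.cast_nonneg _)
  refine ⟨|C| + ∑ y ∈ range X, (f y : ℝ) * (Real.log y) ^ θ / y, fun x hx => ?_⟩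
  have hx0 : (0 : ℝ) < x := by exact_mod_cast (by omega : 0 < x)
  have hL : 0 < Real.log x := Real.log_pos (by exact_mod_cast (by omega : 1 < x))
  have hLp : 0 < (Real.log x) ^ θ := Real.rpow_pos_of_pos hL _
  rw [le_div_iff₀ hLp]
  rcases lt_or_ge x X with h1 | h1
  · have h2 : (f x : ℝ) * (Real.log x) ^ θ / x ≤
        ∑ y ∈ range X, (f y : ℝ) * (Real.log y) ^ θ / y :=
      single_le_sum (fun y _ => hpos y) (mem_range.2 h1)
    rw [div_le_iff₀ hx0] at h2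
    have h3 : 0 ≤ |C| * (x : ℝ) := by positivity
    rw [add_mul]
    linarith
  · have h2 := hX x h1
    rw [le_div_iff₀ hLp] at h2
    have h3 : C * (x : ℝ) ≤ |C| * x := mul_le_mul_of_nonneg_right (le_abs_self C) hx0.le
    have h4 : 0 ≤ (∑ y ∈ range X, (f y : ℝ) * (Real.log y) ^ θ / y) * (x : ℝ) :=
      mul_nonneg (sum_nonneg fun y _ => hpos y) hx0.le
    rw [add_mul]
    linarith

/-- If all odd prime factors of `n < (w + 1)^16` are larger than `w`, there are at most 16 prime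
factors. -/
theorem card_primeFactors_le {n w : ℕ} (hn : n ≠ 0) (hw : 1 ≤ w) (hnw : n < (w + 1) ^ 16)
    (h : ∀ p : ℕ, p.Prime → p ≠ 2 → p ∣ n → w < p) : #n.primeFactors ≤ 16 := by
  have h1 : (w + 1) ^ #(n.primeFactors.erase 2) ≤ ∏ p ∈ n.primeFactors.erase 2, p :=
    pow_card_le_prod _ _ _ fun p hp => by
      obtain ⟨h2, h3⟩ := mem_erase.1 hp
      have h4 := Nat.mem_primeFactors.1 h3
      exact h p h4.1 h2 h4.2.1
  have h2 : ∏ p ∈ n.primeFactors.erase 2, p ≤ ∏ p ∈ n.primeFactors, p :=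
    prod_le_prod_of_subset_of_one_le' (erase_subset _ _) fun p hp _ =>
      (Nat.prime_of_mem_primeFactors hp).one_lt.le
  have h3 : ∏ p ∈ n.primeFactors, p ≤ n :=
    Nat.le_of_dvd (Nat.pos_of_ne_zero hn) (Nat.prod_primeFactors_dvd _)
  have h4 : #(n.primeFactors.erase 2) < 16 :=
    (Nat.pow_lt_pow_iff_right (by omega : 1 < w + 1)).1 (by omega)
  have h5 := pred_card_le_card_erase (s := n.primeFactors) (a := 2)
  omega

open Classical in
theorem main {P : ℕ → Prop}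
    (hP : ∀ n, P n → ∃ (A : Type) (_ : CommGroup A) (e : A) (D : Finset (A × A)), NDS n e D)
    {ε : ℝ} (hε : 0 < ε) :
    ∃ C : ℝ, ∀ x : ℕ, 2 ≤ x →
      (#((Icc 2 x).filter fun n => P n ∧ ¬ IsPrimePow n) : ℝ) ≤
        C * x / (Real.log x) ^ (3 / 2 - ε) := by
  have hadm : ∀ n : ℕ, ¬ IsSquare n → P n → Adm RN n ∧
      (n % 4 = 1 → ∀ p : ℕ, p.Prime → p ∣ n → p % 4 = 1) := by
    intro n hsq hPn
    obtain ⟨A, _, e, D, hD⟩ := hP n hPn
    exact ⟨fun p r hp hr hpn hrn => adm_neo hD hsq hp hr hpn hrn,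
      fun h4 p hp hpn => adm4 hD hsq h4 hp hpn⟩
  obtain ⟨C1, hC1⟩ := wrap_G3 (P := fun n => P n ∧ ¬ IsPrimePow n ∧ ¬ (8 ∣ n ∧ (n - 1).Prime))
    cond2_neo hε (by norm_num : (0 : ℝ) < 1 / 2) (by
      rintro n hn hsq ⟨hPn, hpp, hex⟩
      obtain ⟨h1, h4⟩ := hadm n hsq hPn
      exact ⟨h1, hpp, neo_cond hn h1 h4 hex⟩)
  have hlog : (1 / 2 : ℝ) < 1 - 1 / 10 + 1 / 10 * Real.log (1 / 10) := by
    have h1 : Real.log (1 / 10 : ℝ) = -Real.log 10 := by rw [one_div, Real.log_inv]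
    have h2 : Real.log 10 ≤ 4 * Real.log 2 := by
      rw [show (4 : ℝ) * Real.log 2 = Real.log (2 ^ 4) by rw [Real.log_pow]; norm_num]
      exact Real.log_le_log (by norm_num) (by norm_num)
    have h3 := Real.log_two_lt_d9
    rw [h1]
    linarith
  obtain ⟨C2, hC2⟩ := wrap_few (P := P) cond2_neo (fun n _ hsq hPn => (hadm n hsq hPn).1)
    (c := 1 / 10) (η := 1 / 2 - ε) (by norm_num) (by norm_num) (by linarith) (by linarith)
  refine ext_bound ⟨C1 + C2 + 2 ^ 18, ?_⟩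
  have hev1 : ∀ᶠ x : ℕ in atTop, (160 : ℝ) ≤ Real.log (Real.log x) :=
    ((Real.tendsto_log_atTop.comp Real.tendsto_log_atTop).comp
      tendsto_natCast_atTop_atTop).eventually_ge_atTop 160
  have hev2 : ∀ᶠ x : ℕ in atTop, (Real.log x) ^ (3 / 2 - ε) ≤ (x : ℝ) ^ (1 / 8 : ℝ) := by
    have h1 := (isLittleO_log_rpow_rpow_atTop (3 / 2 - ε) (by norm_num : (0 : ℝ) < 1 / 8)).bound
      (by norm_num : (0 : ℝ) < 1)
    filter_upwards [tendsto_natCast_atTop_atTop.eventually h1] with x hx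
    rw [one_mul, Real.norm_of_nonneg (Real.rpow_nonneg (Nat.cast_nonneg _) _)] at hx
    exact (Real.le_norm_self _).trans hx
  filter_upwards [hev1, hev2, eventually_ge_atTop 2] with x h1 h2 hx
  have hx1 : (1 : ℝ) ≤ x := by exact_mod_cast (by omega : 1 ≤ x)
  have hx0 : (0 : ℝ) < x := by linarith
  have hL : 0 < Real.log x := Real.log_pos (by exact_mod_cast (by omega : 1 < x))
  have hLp : 0 < (Real.log x) ^ (3 / 2 - ε) := Real.rpow_pos_of_pos hL _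
  obtain ⟨r, hr⟩ : ∃ r : ℝ, r = (x : ℝ) ^ (1 / 16 : ℝ) := ⟨_, rfl⟩
  have hr1 : 1 ≤ r := by rw [hr]; exact Real.one_le_rpow hx1 (by norm_num)
  have hr16 : r ^ 16 = x := by
    rw [hr, ← Real.rpow_natCast, ← Real.rpow_mul hx0.le]
    norm_num
  obtain ⟨w, hw⟩ : ∃ w : ℕ, w = ⌊r⌋₊ := ⟨_, rfl⟩
  have hw1 : 1 ≤ w := by rw [hw]; exact (Nat.one_le_floor_iff r).2 hr1
  have hwr : (w : ℝ) ≤ r := by rw [hw]; exact Nat.floor_le (by linarith)
  have hwx : x < (w + 1) ^ 16 := by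
    have h3 : r < (w : ℝ) + 1 := by rw [hw]; exact Nat.lt_floor_add_one r
    have h4 : (x : ℝ) < ((w : ℝ) + 1) ^ 16 := by
      rw [← hr16]
      exact pow_lt_pow_left₀ h3 (by linarith) (by norm_num)
    exact_mod_cast h4
  have hsub : ((Icc 2 x).filter fun n => P n ∧ ¬ IsPrimePow n) ⊆
      ((Icc 2 x).filter (fun n => P n ∧ ¬ IsPrimePow n ∧ ¬ (8 ∣ n ∧ (n - 1).Prime)) ∪
        (Icc 2 x).filter (fun n => P n ∧ ¬ IsPrimePow n ∧
          (#n.primeFactors : ℝ) ≤ 1 / 10 * Real.log (Real.log x))) ∪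
      (Icc 2 x).filter (fun n => P n ∧ 2 ∣ n ∧ (n - 1).Prime ∧
        ∃ p : ℕ, p.Prime ∧ p ≠ 2 ∧ p ∣ n ∧ p ≤ w) := by
    intro n hn
    rw [mem_filter, mem_Icc] at hn
    obtain ⟨hn1, hPn, hpp⟩ := hn
    rw [mem_union, mem_union, mem_filter, mem_filter, mem_filter, mem_Icc]
    by_cases h3 : 8 ∣ n ∧ (n - 1).Prime
    · by_cases h4 : ∃ p : ℕ, p.Prime ∧ p ≠ 2 ∧ p ∣ n ∧ p ≤ w
      · exact Or.inr ⟨hn1, hPn, (by norm_num : 2 ∣ 8).trans h3.1, h3.2, h4⟩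
      · left; right
        push Not at h4
        have h5 := card_primeFactors_le (by omega) hw1 (lt_of_le_of_lt hn1.2 hwx) h4
        have h6 : (#n.primeFactors : ℝ) ≤ 16 := by exact_mod_cast h5
        exact ⟨hn1, hPn, hpp, by linarith⟩
    · exact Or.inl (Or.inl ⟨hn1, hPn, hpp, h3⟩)
  have h3 := card_le_card hsub
  have h4 := card_union_le
    ((Icc 2 x).filter (fun n => P n ∧ ¬ IsPrimePow n ∧ ¬ (8 ∣ n ∧ (n - 1).Prime)) ∪
        (Icc 2 x).filter (fun n => P n ∧ ¬ IsPrimePow n ∧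
          (#n.primeFactors : ℝ) ≤ 1 / 10 * Real.log (Real.log x)))
    ((Icc 2 x).filter (fun n => P n ∧ 2 ∣ n ∧ (n - 1).Prime ∧
        ∃ p : ℕ, p.Prime ∧ p ≠ 2 ∧ p ∣ n ∧ p ≤ w))
  have h5 := card_union_le
    ((Icc 2 x).filter (fun n => P n ∧ ¬ IsPrimePow n ∧ ¬ (8 ∣ n ∧ (n - 1).Prime)))
    ((Icc 2 x).filter (fun n => P n ∧ ¬ IsPrimePow n ∧
          (#n.primeFactors : ℝ) ≤ 1 / 10 * Real.log (Real.log x)))
  have h6 := count hP hwx
  have h7 := hC1 x hx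
  have h8 := hC2 x hx
  rw [show (1 : ℝ) + (1 / 2 - ε) = 3 / 2 - ε by ring] at h8
  have h9 : (16 * ((w : ℝ) + 1) ^ 14) ≤ 2 ^ 18 * x / (Real.log x) ^ (3 / 2 - ε) := by
    rw [le_div_iff₀ hLp]
    have e1 : ((w : ℝ) + 1) ^ 14 ≤ (2 * r) ^ 14 :=
      pow_le_pow_left₀ (by positivity) (by linarith) 14
    have e2 : r ^ 14 * (Real.log x) ^ (3 / 2 - ε) ≤ x := by
      have e3 : (x : ℝ) ^ (1 / 8 : ℝ) = r ^ 2 := by
        rw [hr, ← Real.rpow_natCast, ← Real.rpow_mul hx0.le]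
        norm_num
      rw [e3] at h2
      calc r ^ 14 * (Real.log x) ^ (3 / 2 - ε) ≤ r ^ 14 * r ^ 2 :=
            mul_le_mul_of_nonneg_left h2 (by positivity)
        _ = x := by rw [← pow_add, hr16]
    calc 16 * ((w : ℝ) + 1) ^ 14 * (Real.log x) ^ (3 / 2 - ε)
        ≤ 16 * (2 * r) ^ 14 * (Real.log x) ^ (3 / 2 - ε) :=
          mul_le_mul_of_nonneg_right (mul_le_mul_of_nonneg_left e1 (by norm_num)) hLp.le
      _ = 2 ^ 18 * (r ^ 14 * (Real.log x) ^ (3 / 2 - ε)) := by ring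
      _ ≤ 2 ^ 18 * x := mul_le_mul_of_nonneg_left e2 (by norm_num)
  have h10 : (#((Icc 2 x).filter fun n => P n ∧ ¬ IsPrimePow n) : ℝ) ≤
      (#((Icc 2 x).filter (fun n => P n ∧ ¬ IsPrimePow n ∧ ¬ (8 ∣ n ∧ (n - 1).Prime))) : ℝ) +
      (#((Icc 2 x).filter (fun n => P n ∧ ¬ IsPrimePow n ∧
          (#n.primeFactors : ℝ) ≤ 1 / 10 * Real.log (Real.log x))) : ℝ) +
      16 * ((w : ℝ) + 1) ^ 14 := by
    have := (h3.trans (h4.trans (Nat.add_le_add h5 h6)))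
    exact_mod_cast this
  have h11 : (C1 + C2 + 2 ^ 18) * (x : ℝ) / (Real.log x) ^ (3 / 2 - ε) =
      C1 * x / (Real.log x) ^ (3 / 2 - ε) + C2 * x / (Real.log x) ^ (3 / 2 - ε) +
        2 ^ 18 * x / (Real.log x) ^ (3 / 2 - ε) := by ring
  rw [h11]
  linarith

end Pool.Agent.PPE
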