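import Pool.Agent.PPD.FWrap
import Pool.Agent.PPD.CondPN2
import Pool.Agent.PPD.Neo4
import Pool.Agent.PPC.NeoMann
import Pool.Agent.PPC.NeoDer

/-!
# Orders of planar finite neofields with few prime divisors
-/

set_option autoImplicit false

namespace Pool.Agent.PPE.OldFewNeofields

/-- `K` with the operations `add`, `mul` and the zero element `zero` is a planar neofield with
commutative multiplication. -/
structure PlanarNeofield (K : Type) (add mul : K → K → K) (zero : K) : Prop where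
  zero_add_add_zero : ∀ a, add zero a = a ∧ add a zero = a
  right_div : ∀ a b, ∃! x, add a x = b
  left_div : ∀ a b, ∃! y, add y a = b
  mul_ne_zero : ∀ a b, a ≠ zero → b ≠ zero → mul a b ≠ zero
  mul_assoc : ∀ a b c, a ≠ zero → b ≠ zero → c ≠ zero → mul (mul a b) c = mul a (mul b c)
  one_inv : ∃ e, e ≠ zero ∧ (∀ a, a ≠ zero → mul e a = a ∧ mul a e = a) ∧
    ∀ a, a ≠ zero → ∃ b, b ≠ zero ∧ mul a b = e ∧ mul b a = e
  right_distrib : ∀ a b c, mul (add a b) c = add (mul a c) (mul b c)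
  left_distrib : ∀ a b c, mul c (add a b) = add (mul c a) (mul c b)
  mul_comm : ∀ a b, mul a b = mul b a
  planar : ∃ IsLine : Set (K × K) → Prop,
    (∀ L : Set (K × K), IsLine L ↔
      ((∃ m k : K, L = {p : K × K | p.2 = add (mul p.1 m) k}) ∨
        ∃ a : K, L = {p : K × K | p.1 = a})) ∧
    (∀ P Q : K × K, P ≠ Q → ∃! L : Set (K × K), IsLine L ∧ P ∈ L ∧ Q ∈ L) ∧
    (∀ (L : Set (K × K)) (P : K × K), IsLine L → P ∉ L →
      ∃! M : Set (K × K), IsLine M ∧ P ∈ M ∧ Disjoint M L) ∧
    (∃ P Q R : K × K, ¬ ∃ L : Set (K × K), IsLine L ∧ P ∈ L ∧ Q ∈ L ∧ R ∈ L)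

/-- The order of a planar neofield with commutative multiplication, if it is not a square, is
admissible for the residue test; if it is `1` modulo `4`, so are its prime divisors. -/
theorem adm {n : ℕ} (hsq : ¬ IsSquare n)
    (h : ∃ (K : Type) (_ : Finite K) (add mul : K → K → K) (zero : K),
          PlanarNeofield K add mul zero ∧ Nat.card K = n) :
    Pool.Agent.PPC.Adm Pool.Agent.PPC.RN n ∧
      (n % 4 = 1 → ∀ p : ℕ, p.Prime → p ∣ n → p % 4 = 1) := by
  obtain ⟨K, _, add, mul, zero, ⟨h1, h2, h3, h4, h5, h6, h7, h8, hc, IsLine, h9, h10, h11, -⟩,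
    rfl⟩ := h
  obtain ⟨A, _, e, D, hD⟩ := Pool.Agent.PPC.exists_nds add mul zero h1 h2 h3 h4 h5 h6 h7 h8 hc
    IsLine h9 h10 h11
  exact ⟨fun p r hp hr hpn hrn => Pool.Agent.PPC.adm_neo hD hsq hp hr hpn hrn,
    fun h4 p hp hpn => Pool.Agent.PPD.adm4 hD hsq h4 hp hpn⟩

open Classical in
/-- Let `0 < c < 1`, `η < 1 - c + c log c` and `η < 1 / 2`.  There is `C` such that for every
`x ≥ 2` at most `C x / (log x) ^ (1 + η)` integers `n` with `2 ≤ n ≤ x` are orders of planar
neofields with commutative multiplication, are not prime powers and have at most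
`c log log x` distinct prime divisors. -/
theorem result (c η : ℝ) (h0 : 0 < c) (h1 : c < 1) (hη : η < 1 - c + c * Real.log c)
    (hη2 : η < 1 / 2) :
    ∃ C : ℝ, ∀ x : ℕ, 2 ≤ x →
      (((Finset.Icc 2 x).filter (fun n : ℕ =>
        (∃ (K : Type) (_ : Finite K) (add mul : K → K → K) (zero : K),
          PlanarNeofield K add mul zero ∧ Nat.card K = n) ∧
        ¬ IsPrimePow n ∧
        (n.primeFactors.card : ℝ) ≤ c * Real.log (Real.log x))).card : ℝ) ≤
        C * x / (Real.log x) ^ (1 + η) := by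
  obtain ⟨C, hC⟩ := Pool.Agent.PPD.wrap_few Pool.Agent.PPD.cond2_neo
    (P := fun n : ℕ => ∃ (K : Type) (_ : Finite K) (add mul : K → K → K) (zero : K),
          PlanarNeofield K add mul zero ∧ Nat.card K = n)
    (fun _ _ hsq h => (adm hsq h).1) h0 h1 hη hη2
  refine ⟨C, fun x hx => le_trans (Nat.cast_le.2 (Finset.card_le_card ?_)) (hC x hx)⟩
  intro n hn
  simp only [Finset.mem_filter] at hn ⊢
  exact hn

end Pool.Agent.PPE.OldFewNeofields
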