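import Pool.Agent.PPC.NeoMann

/-!
# PPE/Small: the multipliers of a planar neofield form a small group

If `n - 1` is prime, a set of multipliers which are pairwise incongruent modulo `n - 1` has at
most about `√n` elements: the differences of two of them are pairwise different.
-/

set_option autoImplicit false

namespace Pool.Agent.PPE

open Finset Pool.Agent.PPC

/-- Products of powers of two primes dividing `n` are multipliers. -/
theorem pow_mem2 {A : Type} [CommGroup A] {n : ℕ} {e : A} {D : Finset (A × A)}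
    (h : NDS n e D) {p q : ℕ} (hp : p.Prime) (hpn : p ∣ n) (hq : q.Prime) (hqn : q ∣ n)
    (u v : ℕ) {x y : A} (hxy : (x, y) ∈ D) :
    (x ^ (p ^ u * q ^ v), y ^ (p ^ u * q ^ v)) ∈ D := by
  have h1 : ∀ {r : ℕ}, r.Prime → r ∣ n → ∀ (w : ℕ) {x y : A}, (x, y) ∈ D →
      (x ^ (r ^ w), y ^ (r ^ w)) ∈ D := by
    intro r hr hrn w
    induction w with
    | zero => intro x y h; simpa using h
    | succ w ih =>
      intro x y hxy
      have := h.pow_mem hr hrn (ih hxy)
      rw [← pow_mul, ← pow_mul, ← pow_succ] at this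
      exact this
  have h2 := h1 hq hqn v (h1 hp hpn u hxy)
  rw [← pow_mul, ← pow_mul] at h2
  exact h2

theorem small {A : Type} [CommGroup A] {n : ℕ} {e : A} {D : Finset (A × A)}
    (h : NDS n e D) (hq : (n - 1).Prime) {S : Finset ℕ}
    (hS : ∀ m ∈ S, ∀ x y : A, (x, y) ∈ D → (x ^ m, y ^ m) ∈ D)
    (hinj : ∀ a ∈ S, ∀ b ∈ S, a ≡ b [MOD (n - 1)] → a = b) :
    #S * #S ≤ #S + (n - 2) := by
  classical
  have hfin := h.fin
  cases nonempty_fintype A
  have hc : Nat.card A = n - 1 := by have := h.card; omega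
  have hpr : Fact (n - 1).Prime := ⟨hq⟩
  have hnt : Nontrivial A := by
    rw [← Finite.one_lt_card_iff_nontrivial, hc]
    exact hq.one_lt
  obtain ⟨x0, hx0⟩ := exists_ne (1 : A)
  obtain ⟨y0, hy0, -⟩ := h.row x0 hx0
  have hord : orderOf x0 = n - 1 := by
    rcases (Nat.dvd_prime hq).1 (hc ▸ orderOf_dvd_natCard x0) with h1 | h1
    · exact absurd (orderOf_eq_one_iff.1 h1) hx0
    · exact h1
  obtain ⟨t, ht⟩ : ∃ t : ℕ, x0 ^ t = y0 := mem_powers_of_prime_card hc hx0
  have h1 : #S.offDiag ≤ #((univ : Finset A).erase 1) := by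
    refine card_le_card_of_injOn (fun s => x0 ^ s.1 * (x0 ^ s.2)⁻¹) ?_ ?_
    · rintro ⟨a, b⟩ hs
      have hs' := mem_offDiag.1 hs
      rw [mem_coe, mem_erase]
      refine ⟨?_, mem_univ _⟩
      intro h2
      simp only at h2 hs'
      rw [mul_inv_eq_one, pow_eq_pow_iff_modEq, hord] at h2
      exact hs'.2.2 (hinj a hs'.1 b hs'.2.1 h2)
    · rintro ⟨a, b⟩ hs ⟨a', b'⟩ hs' heq
      have hs1 := mem_offDiag.1 hs
      have hs2 := mem_offDiag.1 hs'
      simp only at heq hs1 hs2
      obtain ⟨g, hg⟩ : ∃ g : A, g = x0 ^ a * (x0 ^ b)⁻¹ := ⟨_, rfl⟩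
      have hg' : g = x0 ^ a' * (x0 ^ b')⁻¹ := hg.trans heq
      have hg1 : g ≠ 1 := by
        intro h2
        rw [h2, eq_comm, mul_inv_eq_one, pow_eq_pow_iff_modEq, hord] at hg
        exact hs1.2.2 (hinj a hs1.1 b hs1.2.1 hg)
      have key : ∀ a b : ℕ, g = x0 ^ a * (x0 ^ b)⁻¹ → a ∈ S → b ∈ S →
          (((x0 ^ a, y0 ^ a), (x0 ^ b, y0 ^ b)) : (A × A) × (A × A)) ∈
            (D ×ˢ D).filter fun s : (A × A) × (A × A) => s.1 = (g, g ^ t) * s.2 := by
        intro a b hab ha hb
        have e1 : x0 ^ a = g * x0 ^ b := by rw [hab, inv_mul_cancel_right]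
        rw [mem_filter, mem_product]
        refine ⟨⟨hS a ha _ _ hy0, hS b hb _ _ hy0⟩, ?_⟩
        refine Prod.ext e1 ?_
        show y0 ^ a = g ^ t * y0 ^ b
        rw [← ht, ← pow_mul, ← pow_mul, mul_comm t a, mul_comm t b, pow_mul, pow_mul, e1, mul_pow]
      have hle : #((D ×ˢ D).filter fun s : (A × A) × (A × A) => s.1 = (g, g ^ t) * s.2) ≤ 1 := by
        rw [h.card_ratio (g, g ^ t), if_neg]
        · split_ifs <;> omega
        · intro h2
          exact hg1 (congrArg Prod.fst h2)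
      have h3 := card_le_one.1 hle _ (key a b hg hs1.1 hs1.2.1) _ (key a' b' hg' hs2.1 hs2.2.1)
      simp only [Prod.mk.injEq] at h3
      have ha : a = a' := by
        refine hinj a hs1.1 a' hs2.1 ?_
        rw [← hord, ← pow_eq_pow_iff_modEq]
        exact h3.1.1
      have hb : b = b' := by
        refine hinj b hs1.2.1 b' hs2.2.1 ?_
        rw [← hord, ← pow_eq_pow_iff_modEq]
        exact h3.2.1
      rw [ha, hb]
  rw [offDiag_card, card_erase_of_mem (mem_univ _), card_univ, ← Nat.card_eq_fintype_card, hc] at h1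
  omega

end Pool.Agent.PPE
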